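import Pool.Agent.Run7.h92.Fin3
import Pool.Agent.Run7.h92.Siegel

/-!
# Base points of `m (12 M - D)` on matroidal strata

For every `g ≥ 1` no point of `A_g^F` lying on the stratum of a matroidal cone (a cone generated
by the squares of the rows of a unimodular system; the zero cone gives `A_g` itself) is a base
point of `|m (12 M - D)|` for all `m`.
-/

namespace Pool.Agent.Results.MP_df63b8_ag.NoBasePointMatroidal

open Matrix Complex Filter Topology

/-- The Siegel upper half-space: symmetric complex matrices with positive definite imaginary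
part. -/
def SiegelSpace (g : ℕ) : Set (Matrix (Fin g) (Fin g) ℂ) :=
  {τ | τ.IsSymm ∧ (τ.map Complex.im).PosDef}

/-- An integer matrix as a complex matrix. -/
def toC {g : ℕ} (A : Matrix (Fin g) (Fin g) ℤ) : Matrix (Fin g) (Fin g) ℂ :=
  A.map (Int.cast : ℤ → ℂ)

/-- The integral rank one form `v vᵀ` as a complex matrix. -/
def sqr {g : ℕ} (v : Fin g → ℤ) : Matrix (Fin g) (Fin g) ℂ :=
  vecMulVec (fun i => (v i : ℂ)) (fun i => (v i : ℂ))

/-- `f` is holomorphic on the Siegel space and satisfies the transformation law of modular forms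
of weight `k` for the full group `Sp(2g, ℤ)`. -/
def IsModularForm (g k : ℕ) (f : Matrix (Fin g) (Fin g) ℂ → ℂ) : Prop :=
  DifferentiableOn ℂ f (SiegelSpace g) ∧
  ∀ A B C D : Matrix (Fin g) (Fin g) ℤ, fromBlocks A B C D ∈ symplecticGroup (Fin g) ℤ →
    ∀ τ ∈ SiegelSpace g,
      f ((toC A * τ + toC B) * (toC C * τ + toC D)⁻¹) = (toC C * τ + toC D).det ^ k * f τ

/-- `f` vanishes to order at least `m` along the boundary divisor: for every rank one integral
form `v vᵀ`, `v ≠ 0`, one has `|f (τ + t v vᵀ)| ≤ C |q|^m` for `q = exp (2 π i t)`, `Im t ≥ 0`. -/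
def VanishesToOrder (g m : ℕ) (f : Matrix (Fin g) (Fin g) ℂ → ℂ) : Prop :=
  ∀ v : Fin g → ℤ, v ≠ 0 → ∀ τ ∈ SiegelSpace g, ∃ C : ℝ, ∀ t : ℂ, 0 ≤ t.im →
    ‖f (τ + t • sqr v)‖ ≤ C * ‖cexp (2 * Real.pi * I * t)‖ ^ m

/-- The point of the stratum of the cone generated by the `v l (v l)ᵀ` which is the limit of
`τ + i ∑ s_l v_l v_lᵀ` (all `s_l → ∞`) is not a base point of `|m (12 M - D)|` for some `m > 0`:
some modular form `f` of weight `12 m`, vanishing to order `m` along `D`, has nonzero limit there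
after division by the product of the `m`-th powers of the `exp (2 π i (i s_l)) = exp (-2 π s_l)`. -/
def NotBasePoint (g k : ℕ) (v : Fin k → Fin g → ℤ) (τ : Matrix (Fin g) (Fin g) ℂ) : Prop :=
  ∃ m : ℕ, 0 < m ∧ ∃ f : Matrix (Fin g) (Fin g) ℂ → ℂ,
    IsModularForm g (12 * m) f ∧ VanishesToOrder g m f ∧ ∃ c : ℂ, c ≠ 0 ∧
      Tendsto (fun s : Fin k → ℝ => f (τ + ∑ l, (I * (s l : ℂ)) • sqr (v l)) *
        ((Real.exp (2 * Real.pi * m * ∑ l, s l) : ℝ) : ℂ)) atTop (𝓝 c)

/-- The vectors `a l` span `ℝ^r`. -/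
def Spans (r k : ℕ) (a : Fin k → Fin r → ℤ) : Prop :=
  ∀ d : Fin r → ℝ, (∀ l, ∑ i, (a l i : ℝ) * d i = 0) → d = 0

/-- A unimodular system (representing a regular matroid): nonzero vectors spanning the space, any
`r` of which have determinant `0`, `1` or `-1`. -/
def IsUnimodularSystem (r k : ℕ) (a : Fin k → Fin r → ℤ) : Prop :=
  (∀ l, a l ≠ 0) ∧ Spans r k a ∧
    ∀ f : Fin r → Fin k, (Matrix.of fun i => a (f i)).det ∈ ({0, 1, -1} : Set ℤ)


/-- Extension of an integral vector by zeros. -/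
def extend {r : ℕ} (g : ℕ) (a : Fin r → ℤ) : Fin g → ℤ :=
  fun i => if h : i.val < r then a ⟨i.val, h⟩ else 0

open Run7.h92 in
/-- The forms built from theta constants are modular forms with the right vanishing order. -/
theorem forms_ok (g : ℕ) (hg : 1 ≤ g) (n M l : ℕ) (hn : NeZero (2 * n)) :
    IsModularForm g (12 * ((2 * n) ^ 2 * M * l)) (fun τ => ff (2 * n) n M l τ) ∧
      VanishesToOrder g ((2 * n) ^ 2 * M * l) (fun τ => ff (2 * n) n M l τ) := by
  obtain ⟨g, rfl⟩ : ∃ h, g = h + 1 := ⟨g - 1, by omega⟩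
  refine ⟨⟨?_, ?_⟩, ?_⟩
  · intro τ hτ
    exact (ff_diff (HH_of_pos hτ.1 hτ.2)).differentiableWithinAt
  · intro A B C D hmem τ hτ
    have hHH := HH_of_pos hτ.1 hτ.2
    have hG : fromBlocks A B C D ∈ GG (g + 1) := by
      rw [GG_eq]
      exact hmem
    have e1 : (toC A * τ + toC B) * (toC C * τ + toC D)⁻¹ = act (fromBlocks A B C D) τ := by
      unfold act num aut
      rw [toBlocks_fromBlocks₁₁, toBlocks_fromBlocks₁₂, toBlocks_fromBlocks₂₁,
        toBlocks_fromBlocks₂₂]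
      rfl
    have e2 : toC C * τ + toC D = aut (fromBlocks A B C D) τ := by
      unfold aut
      rw [toBlocks_fromBlocks₂₁, toBlocks_fromBlocks₂₂]
      rfl
    rw [e1, e2]
    exact ff_act rfl hG hHH
  · intro v hv τ hτ
    obtain ⟨C, hC⟩ := ff_bound (N := 2 * n) (n := n) (M := M) (l := l) rfl
      (HH_of_pos hτ.1 hτ.2) hv
    refine ⟨C, fun t ht => ?_⟩
    have h1 := hC t ht
    have e1 : (mv τ t v : MM (g + 1)) = τ + t • sqr v := rfl
    rw [e1] at h1
    refine h1.trans (le_of_eq ?_)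
    congr 1
    rw [Complex.norm_exp, ← Real.exp_nat_mul]
    congr 1
    have : (2 * Real.pi * I * t : ℂ).re = -(2 * Real.pi * t.im) := by
      rw [show (2 * Real.pi * I * t : ℂ) = ((2 * Real.pi : ℝ) : ℂ) * (I * t) by push_cast; ring,
        Complex.re_ofReal_mul]
      simp
    rw [this]
    ring

open Run7.h92 in
/-- Spanning configurations with certificates have no base point. -/
theorem of_cert {g r k : ℕ} (hg : 1 ≤ g) (hr : r ≤ g) {a : Fin k → Fin r → ℤ}
    (hsp : Spans r k a) (hC : ∃ P, Cert a P)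
    {U : Matrix (Fin g) (Fin g) ℤ} (hU : IsUnit U.det)
    {τ : Matrix (Fin g) (Fin g) ℂ} (hτ : τ ∈ SiegelSpace g) :
    NotBasePoint g k (fun l => U *ᵥ extend g (a l)) τ := by
  obtain ⟨P, hC⟩ := hC
  obtain ⟨g', rfl⟩ : ∃ g', g = g' + r := ⟨g - r, by omega⟩
  have e0 : (fun l => U *ᵥ extend (g' + r) (a l)) = fun l => U *ᵥ ext0 g' (a l) := by
    funext l
    congr 1
    funext i
    rw [ext0_apply]
    rfl
  rw [e0]
  have hUU : U * U⁻¹ = 1 := mul_nonsing_inv _ hU
  have hUU' : U⁻¹ * U = 1 := nonsing_inv_mul _ hU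
  obtain ⟨n, M, l, hn, hM, hl, c, hc, hlim⟩ := hC.lim hsp hg hUU hUU' (HH_of_pos hτ.1 hτ.2)
  have hN : 0 < 2 * n := Nat.pos_of_ne_zero hn.out
  obtain ⟨hf1, hf2⟩ := forms_ok (g' + r) hg n M l hn
  refine ⟨(2 * n) ^ 2 * M * l, by positivity, fun τ => ff (2 * n) n M l τ, hf1, hf2, c, hc, ?_⟩
  refine hlim.congr fun s => ?_
  have e1 : (mvs τ s (fun l => U *ᵥ ext0 g' (a l)) : MM (g' + r)) =
      τ + ∑ l, (I * (s l : ℂ)) • sqr (U *ᵥ ext0 g' (a l)) := by
    funext i j
    unfold mvs sqr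
    simp only [Matrix.add_apply, Matrix.sum_apply, Matrix.smul_apply, vecMulVec_apply, smul_eq_mul]
    rw [Finset.mul_sum]
    congr 1
    exact Finset.sum_congr rfl fun l _ => by ring
  rw [e1]

open Run7.h92 in
/-- The divisor `12 M - D` has no stable base point on the strata of the matroidal cones. -/
theorem result (g r k : ℕ) (hg : 1 ≤ g) (hr : r ≤ g) (a : Fin k → Fin r → ℤ)
    (ha : IsUnimodularSystem r k a)
    (U : Matrix (Fin g) (Fin g) ℤ) (hU : IsUnit U.det)
    (τ : Matrix (Fin g) (Fin g) ℂ) (hτ : τ ∈ SiegelSpace g) :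
    NotBasePoint g k (fun l => U *ᵥ extend g (a l)) τ := by
  obtain ⟨h1, h2, h3⟩ := ha
  refine of_cert hg hr h2 ⟨_, cert_unim (fun f hf => ?_) h2 h1⟩ hU hτ
  rcases h3 f with h | h | h
  · exact absurd h hf
  · exact Int.isUnit_iff.2 (Or.inl h)
  · exact Int.isUnit_iff.2 (Or.inr h)


end Pool.Agent.Results.MP_df63b8_ag.NoBasePointMatroidal
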